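import Pool.Agent.H948.HS.Stm

set_option autoImplicit false

namespace Pool.Agent.H404.HS

open MeasureTheory ProbabilityTheory Set Filter Metric
open scoped ENNReal NNReal Topology RealInnerProductSpace
open Pool.Agent.H948.HS

variable {m : ℕ}

/-! ## Sums of steps in a direction -/

theorem inner_S_ge (f : E m) (u : Om m) (i j : ℕ) (hij : i ≤ j) (κ : ℝ)
    (h : ∀ k, i ≤ k → k < j → κ ≤ ⟪f, (u k : E m)⟫) :
    κ * ((j : ℝ) - i) ≤ ⟪f, S u i j⟫ := by
  induction j, hij using Nat.le_induction with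
  | base => simp [S_self]
  | succ j hij ih =>
    have h1 := ih (fun k hk hkj => h k hk (by omega))
    have h2 := h j hij (by omega)
    rw [S_succ u hij, inner_add_right]
    push_cast
    linarith

/-- an increasing profile -/
theorem chain (ψ : ℕ → ℝ) (q n : ℕ) (κ γ : ℝ) (hκ : 0 < κ) (hγ : γ < κ)
    (P1 : ∀ a b, a ≤ b → b ≤ q → κ * ((b : ℝ) - a) ≤ ψ b - ψ a)
    (P2 : ∀ t, q ≤ t → t ≤ q + n → ψ q ≤ ψ t ∧ ψ t ≤ ψ (q + n))
    (P3 : ∀ a b, q + n ≤ a → a ≤ b → b ≤ n + 2 * q → κ * ((b : ℝ) - a) ≤ ψ b - ψ a)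
    (i j : ℕ) (hij : i < j) (hj : j ≤ n + 2 * q) (hout : i < q ∨ q + n < j) :
    γ < ψ j - ψ i := by
  have one : ∀ a b : ℕ, a < b → κ ≤ κ * ((b : ℝ) - a) := by
    intro a b hab
    have : (1 : ℝ) ≤ (b : ℝ) - a := by
      have : (a : ℝ) + 1 ≤ b := by exact_mod_cast hab
      linarith
    nlinarith
  rcases Nat.lt_or_ge i q with hi | hi
  · rcases Nat.lt_or_ge q j with hjq | hjq
    · have h1 := P1 i q hi.le le_rfl
      have h2 := one i q hi
      rcases Nat.lt_or_ge (q + n) j with h | h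
      · have h3 := P3 (q + n) j le_rfl h.le hj
        have h4 := one (q + n) j h
        have h5 := (P2 (q + n) (by omega) le_rfl).1
        linarith
      · have h5 := (P2 j hjq.le h).1
        linarith
    · have h1 := P1 i j hij.le hjq
      have h2 := one i j hij
      linarith
  · have hjn : q + n < j := by omega
    rcases Nat.lt_or_ge i (q + n) with h | h
    · have h3 := P3 (q + n) j le_rfl hjn.le hj
      have h4 := one (q + n) j hjn
      have h5 := (P2 i hi h.le).2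
      linarith
    · have h1 := P3 i j h hij.le hj
      have h2 := one i j hij
      linarith

/-- a step in the cap has a large component in the direction `f` -/
theorem cap_inner (f x : E m) (ρ : ℝ) (hf : ‖f‖ = 1) (hx : ‖x‖ = 1)
    (h1 : 1 - ρ ≤ ⟪f, e0 m⟫) (h2 : 1 - ρ ≤ ⟪e0 m, x⟫) : 1 - 4 * ρ ≤ ⟪f, x⟫ := by
  have he := norm_e0 (m := m)
  have a1 : ‖f - x‖ ^ 2 = 2 - 2 * ⟪f, x⟫ := by
    rw [@norm_sub_sq_real, hf, hx]
    ring
  have a2 : ‖f - e0 m‖ ^ 2 = 2 - 2 * ⟪f, e0 m⟫ := by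
    rw [@norm_sub_sq_real, hf, he]
    ring
  have a3 : ‖e0 m - x‖ ^ 2 = 2 - 2 * ⟪e0 m, x⟫ := by
    rw [@norm_sub_sq_real, he, hx]
    ring
  have a4 : ‖f - x‖ ≤ ‖f - e0 m‖ + ‖e0 m - x‖ := norm_sub_le_norm_sub_add_norm_sub _ _ _
  have a5 : ‖f - x‖ ^ 2 ≤ (‖f - e0 m‖ + ‖e0 m - x‖) ^ 2 :=
    pow_le_pow_left₀ (norm_nonneg _) a4 2
  nlinarith [sq_nonneg (‖f - e0 m‖ - ‖e0 m - x‖)]

/-- the concatenation of connector, rotated nice piece and connector is a bridge -/
theorem up_bridge {c v C2 ζ : ℝ} {q n : ℕ} (hc0 : 0 < c) (hc1 : c < 1) (hv0 : 0 < v)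
    (hC : 0 < C2) (hq : 2 * (C2 + 1) ≤ q) (R : E m ≃ₗᵢ[ℝ] E m)
    (hf : 1 - (1 - c) / 16 ≤ ⟪R (e0 m), e0 m⟫) (u : Om m)
    (h1 : ∀ k < q, 1 - (1 - c) / 16 < ⟪e0 m, (u k : E m)⟫)
    (h2 : rotO R.symm (shift q u) ∈ Nice m c v C2 ζ n)
    (h3 : ∀ k, q + n ≤ k → k < n + 2 * q → 1 - (1 - c) / 16 < ⟪e0 m, (u k : E m)⟫) :
    u ∈ Brd m c (n + 2 * q) := by
  obtain ⟨hs, hh, hl, hend⟩ := h2
  obtain ⟨w, hw⟩ : ∃ w : Om m, w = rotO R.symm (shift q u) := ⟨_, rfl⟩
  rw [← hw] at hs hh hl hend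
  have hSw : ∀ i j, S w i j = R.symm (S u (q + i) (q + j)) := by
    intro i j
    rw [hw, rotO_S, S_shift]
  have hfn : ‖R (e0 m)‖ = 1 := by rw [R.norm_map, norm_e0]
  have hrot : ∀ x y : E m, ⟪R x, y⟫ = ⟪x, R.symm y⟫ := by
    intro x y
    have := R.inner_map_map x (R.symm y)
    rw [R.apply_symm_apply] at this
    exact this
  have hrot' : ∀ x y : E m, ⟪x, y⟫ = ⟪R.symm x, R.symm y⟫ := by
    intro x y
    exact (R.symm.inner_map_map x y).symm
  -- monotonicity of the heights of a nice piece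
  have hmono : ∀ j, j ≤ n → 0 ≤ ht w 0 j ∧ 0 ≤ ht w j n := by
    intro j hj
    have a := hh j hj
    have b := ht_add w (Nat.zero_le j) hj
    exact ⟨a.1, by linarith [a.2]⟩
  have hg : 1 / 2 ≤ ⟪R.symm (e0 m), e0 m⟫ := by
    have := hrot (e0 m) (e0 m)
    rw [real_inner_comm, ← this]
    linarith
  have hgn : ‖R.symm (e0 m)‖ = 1 := by rw [R.symm.norm_map, norm_e0]
  -- the profile in the direction `g`
  have hback : ∀ (x : E m) (t : ℝ), 0 ≤ t → ‖x - (v * t) • e0 m‖ ≤ v / 2 * t + C2 →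
      -C2 ≤ ⟪R.symm (e0 m), x⟫ := by
    intro x t ht0 hx
    have e : x = (x - (v * t) • e0 m) + (v * t) • e0 m := by abel
    have a1 : ⟪R.symm (e0 m), x⟫ = ⟪R.symm (e0 m), x - (v * t) • e0 m⟫ +
        (v * t) * ⟪R.symm (e0 m), e0 m⟫ := by
      conv_lhs => rw [e]
      rw [inner_add_right, real_inner_smul_right]
    have a2 : |⟪R.symm (e0 m), x - (v * t) • e0 m⟫| ≤ v / 2 * t + C2 := by
      refine (abs_real_inner_le_norm _ _).trans ?_
      rw [hgn, one_mul]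
      exact hx
    have a3 := (abs_le.1 a2).1
    have a4 : (v * t) * (1 / 2) ≤ (v * t) * ⟪R.symm (e0 m), e0 m⟫ :=
      mul_le_mul_of_nonneg_left hg (by positivity)
    rw [a1]
    linarith
  have hstep : ∀ k, k < q ∨ (q + n ≤ k ∧ k < n + 2 * q) →
      1 - (1 - c) / 16 ≤ ⟪e0 m, (u k : E m)⟫ := by
    rintro k (hk | ⟨hk, hk'⟩)
    · exact (h1 k hk).le
    · exact (h3 k hk hk').le
  have hstepf : ∀ k, k < q ∨ (q + n ≤ k ∧ k < n + 2 * q) →
      1 - 4 * ((1 - c) / 16) ≤ ⟪R (e0 m), (u k : E m)⟫ := fun k hk =>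
    cap_inner _ _ _ hfn (norm_sp _) hf (hstep k hk)
  -- differences of profiles
  have hdiff : ∀ (f : E m) (a b : ℕ), a ≤ b → ⟪f, S u 0 b⟫ - ⟪f, S u 0 a⟫ = ⟪f, S u a b⟫ := by
    intro f a b hab
    rw [← S_add u (Nat.zero_le a) hab, inner_add_right]
    ring
  have hmain : ∀ i j, i < j → j ≤ n + 2 * q → (i < q ∨ q + n < j) →
      c < ⟪R (e0 m), S u 0 j⟫ - ⟪R (e0 m), S u 0 i⟫ := by
    refine chain (fun t => ⟪R (e0 m), S u 0 t⟫) q n (1 - 4 * ((1 - c) / 16)) c (by linarith)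
      (by linarith) ?_ ?_ ?_
    · intro a b hab hb
      rw [hdiff _ a b hab]
      exact inner_S_ge _ u a b hab _ fun k _ hk => hstepf k (Or.inl (by omega))
    · intro t ht1 ht2
      obtain ⟨j, rfl⟩ : ∃ j, t = q + j := ⟨t - q, by omega⟩
      have hj : j ≤ n := by omega
      have b1 := hdiff (R (e0 m)) q (q + j) (by omega)
      have b2 := hdiff (R (e0 m)) (q + j) (q + n) (by omega)
      have b3 := hmono j hj
      have b4 : ⟪R (e0 m), S u q (q + j)⟫ = ht w 0 j := by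
        rw [ht_eq_inner, hSw, add_zero, hrot]
      have b5 : ⟪R (e0 m), S u (q + j) (q + n)⟫ = ht w j n := by
        rw [ht_eq_inner, hSw, hrot]
      rw [b4] at b1
      rw [b5] at b2
      constructor
      · linarith [b3.1]
      · linarith [b3.2]
    · intro a b ha hab hb
      rw [hdiff _ a b hab]
      exact inner_S_ge _ u a b hab _ fun k hk1 hk2 => hstepf k (Or.inr (by omega))
  have hsaw : u ∈ Saw m c (n + 2 * q) := by
    intro i j hij hj
    by_cases hin : i < q ∨ q + n < j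
    · have a1 := hmain i j hij hj hin
      rw [hdiff _ i j hij.le] at a1
      have a2 := real_inner_le_norm (R (e0 m)) (S u i j)
      rw [hfn, one_mul] at a2
      linarith
    · push Not at hin
      obtain ⟨i', rfl⟩ : ∃ i', i = q + i' := ⟨i - q, by omega⟩
      obtain ⟨j', rfl⟩ : ∃ j', j = q + j' := ⟨j - q, by omega⟩
      have a1 := hs i' j' (by omega) (by omega)
      rw [hSw, R.symm.norm_map] at a1
      exact a1
  -- heights
  have hht : ∀ a b, a ≤ b → ht u 0 b - ht u 0 a = ht u a b := by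
    intro a b hab
    have := ht_add u (Nat.zero_le a) hab
    linarith
  have hup : ∀ a b, a ≤ b → (b ≤ q ∨ (q + n ≤ a ∧ b ≤ n + 2 * q)) →
      (1 - (1 - c) / 16) * ((b : ℝ) - a) ≤ ht u 0 b - ht u 0 a := by
    intro a b hab hb
    rw [hht a b hab, ht_eq_inner]
    refine inner_S_ge _ u a b hab _ fun k hk1 hk2 => hstep k ?_
    rcases hb with hb | hb
    · left; omega
    · right; omega
  have hmid : ∀ j, j ≤ n → -C2 ≤ ht u 0 (q + j) - ht u 0 q ∧
      -C2 ≤ ht u 0 (q + n) - ht u 0 (q + j) := by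
    intro j hj
    obtain ⟨c1, c2⟩ := hl j hj
    constructor
    · rw [hht q (q + j) (by omega), ht_eq_inner]
      have a1 := hback (S w 0 j) j (Nat.cast_nonneg j) c1
      rw [hSw, ← hrot', add_zero] at a1
      exact a1
    · rw [hht (q + j) (q + n) (by omega), ht_eq_inner]
      have hnj : (0 : ℝ) ≤ (n : ℝ) - j := by
        have : (j : ℝ) ≤ n := by exact_mod_cast hj
        linarith
      have a1 := hback (S w j n) ((n : ℝ) - j) hnj c2
      rw [hSw, ← hrot'] at a1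
      exact a1
  have h00 : ht u 0 0 = 0 := ht_self u 0
  have hqh : C2 + 1 ≤ (1 - (1 - c) / 16) * (q : ℝ) := by nlinarith
  have hq0 : C2 + 1 ≤ ht u 0 q := by
    have := hup 0 q (Nat.zero_le q) (Or.inl le_rfl)
    rw [h00] at this
    simp only [Nat.cast_zero, sub_zero] at this
    linarith
  have hendq : C2 + 1 ≤ ht u 0 (n + 2 * q) - ht u 0 (q + n) := by
    have := hup (q + n) (n + 2 * q) (by omega) (Or.inr ⟨le_rfl, le_rfl⟩)
    have e : (((n + 2 * q : ℕ) : ℝ) - ((q + n : ℕ) : ℝ)) = q := by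
      push_cast
      ring
    rw [e] at this
    linarith
  refine ⟨hsaw, ?_, ?_⟩
  · intro j hj0 hj
    rcases Nat.lt_or_ge q j with hqj | hqj
    · rcases Nat.lt_or_ge (q + n) j with h | h
      · have a1 := hup (q + n) j h.le (Or.inr ⟨le_rfl, hj⟩)
        have a2 : 0 ≤ (1 - (1 - c) / 16) * ((j : ℝ) - ((q + n : ℕ) : ℝ)) := by
          have : (((q + n : ℕ) : ℝ)) ≤ j := by exact_mod_cast h.le
          apply mul_nonneg <;> linarith
        have a3 := (hmid n le_rfl).1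
        linarith
      · obtain ⟨j', rfl⟩ : ∃ j', j = q + j' := ⟨j - q, by omega⟩
        have a3 := (hmid j' (by omega)).1
        linarith
    · have a1 := hup 0 j (Nat.zero_le j) (Or.inl hqj)
      rw [h00] at a1
      simp only [Nat.cast_zero, sub_zero] at a1
      have a2 : (1 : ℝ) ≤ j := by exact_mod_cast hj0
      nlinarith
  · intro j hj
    rcases Nat.lt_or_ge (q + n) j with h | h
    · have a1 := hup j (n + 2 * q) hj.le (Or.inr ⟨h.le, le_rfl⟩)
      have a2 : (j : ℝ) + 1 ≤ ((n + 2 * q : ℕ) : ℝ) := by exact_mod_cast hj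
      nlinarith
    · rcases Nat.lt_or_ge q j with hqj | hqj
      · obtain ⟨j', rfl⟩ : ∃ j', j = q + j' := ⟨j - q, by omega⟩
        have a3 := (hmid j' (by omega)).2
        linarith
      · have a1 := hup j q hqj (Or.inl le_rfl)
        have a2 : 0 ≤ (1 - (1 - c) / 16) * ((q : ℝ) - (j : ℝ)) := by
          have : (j : ℝ) ≤ q := by exact_mod_cast hqj
          apply mul_nonneg <;> linarith
        have a3 := (hmid 0 (Nat.zero_le n)).2
        rw [add_zero] at a3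
        linarith

/-! ## The events -/

/-- the first step is in the cap -/
def capO (m : ℕ) (ρ : ℝ) : Set (Om m) := {u | 1 - ρ < ⟪e0 m, (u 0 : E m)⟫}

/-- the cap -/
def capS (m : ℕ) (ρ : ℝ) : Set (Sp m) := {x | 1 - ρ < ⟪e0 m, (x : E m)⟫}

theorem meas_capS (ρ : ℝ) : MeasurableSet (capS m ρ) :=
  measurableSet_lt measurable_const
    ((continuous_const.inner continuous_id).measurable.comp measurable_subtype_coe)

theorem meas_capO (ρ : ℝ) : MeasurableSet (capO m ρ) := by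
  have h : Measurable (fun u : Om m => u 0) := measurable_pi_apply 0
  exact h (meas_capS ρ)

theorem loc_capO (ρ : ℝ) : Loc 1 (capO m ρ) := by
  intro u v h
  have h0 : u 0 = v 0 := h 0 (by norm_num)
  show 1 - ρ < ⟪e0 m, (u 0 : E m)⟫ ↔ 1 - ρ < ⟪e0 m, (v 0 : E m)⟫
  rw [h0]

theorem prob_capO (ρ : ℝ) : (Pm m).real (capO m ρ) = (sig m).real (capS m ρ) := by
  have h := (measurePreserving_eval_infinitePi (fun _ : ℕ => sig m) 0).measure_preimage
    (meas_capS ρ).nullMeasurableSet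
  unfold Measure.real
  rw [← h]
  rfl

/-- a rotated nice piece -/
def rotN (m : ℕ) (c v C2 ζ : ℝ) (n : ℕ) (R : E m ≃ₗᵢ[ℝ] E m) : Set (Om m) :=
  {w | rotO R.symm w ∈ Nice m c v C2 ζ n}

theorem measurable_rotO (R : E m ≃ₗᵢ[ℝ] E m) : Measurable (rotO R : Om m → Om m) := by
  refine measurable_pi_iff.2 fun i => ?_
  have h : Continuous (rot R) :=
    Continuous.subtype_mk (R.continuous.comp continuous_subtype_val) _
  exact h.measurable.comp (measurable_pi_apply i)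

theorem meas_rotN (c v C2 ζ : ℝ) (n : ℕ) (R : E m ≃ₗᵢ[ℝ] E m) :
    MeasurableSet (rotN m c v C2 ζ n R) :=
  measurable_rotO R.symm (meas_Nice c v C2 ζ n)

theorem loc_rotN (c v C2 ζ : ℝ) (n : ℕ) (R : E m ≃ₗᵢ[ℝ] E m) : Loc n (rotN m c v C2 ζ n R) := by
  intro u w h
  exact loc_Nice c v C2 ζ n _ _ fun i hi => by simp only [rotO, h i hi]

/-- start of the block `i` -/
def bt (q n i : ℕ) : ℕ := if i ≤ q then i else n + i - 1

/-- length of the block `i` -/
def bn (q n i : ℕ) : ℕ := if i = q then n else 1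

/-- event of the block `i` -/
def bA (m : ℕ) (c v C2 ζ : ℝ) (q n : ℕ) (R : E m ≃ₗᵢ[ℝ] E m) (i : ℕ) : Set (Om m) :=
  {u | (i = q → u ∈ rotN m c v C2 ζ n R) ∧ (i ≠ q → u ∈ capO m ((1 - c) / 16))}

theorem bA_q (c v C2 ζ : ℝ) (q n : ℕ) (R : E m ≃ₗᵢ[ℝ] E m) :
    bA m c v C2 ζ q n R q = rotN m c v C2 ζ n R := by
  ext u
  simp [bA]

theorem bA_ne (c v C2 ζ : ℝ) (q n : ℕ) (R : E m ≃ₗᵢ[ℝ] E m) {i : ℕ} (h : i ≠ q) :
    bA m c v C2 ζ q n R i = capO m ((1 - c) / 16) := by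
  ext u
  simp [bA, h]

/-- the event of the rotated piece with connectors -/
def UU (m : ℕ) (c v C2 ζ : ℝ) (q n : ℕ) (R : E m ≃ₗᵢ[ℝ] E m) : Set (Om m) :=
  {u | ∀ i < 2 * q + 1, shift (bt q n i) u ∈ bA m c v C2 ζ q n R i}

theorem block_ok (c v C2 ζ : ℝ) (q n : ℕ) (R : E m ≃ₗᵢ[ℝ] E m) (i : ℕ) :
    MeasurableSet (bA m c v C2 ζ q n R i) ∧ Loc (bn q n i) (bA m c v C2 ζ q n R i) := by
  by_cases h : i = q
  · subst h
    rw [bA_q, bn, if_pos rfl]
    exact ⟨meas_rotN c v C2 ζ n R, loc_rotN c v C2 ζ n R⟩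
  · rw [bA_ne c v C2 ζ q n R h, bn, if_neg h]
    exact ⟨meas_capO _, loc_capO _⟩

theorem meas_UU (c v C2 ζ : ℝ) (q n : ℕ) (R : E m ≃ₗᵢ[ℝ] E m) :
    MeasurableSet (UU m c v C2 ζ q n R) := by
  unfold UU
  refine meas_all fun i => meas_all fun _ => ?_
  exact (measurable_shift _) (block_ok c v C2 ζ q n R i).1

theorem prob_UU (hB : S_BLOCK) (hR : S_ROT) (c v C2 ζ : ℝ) (q n : ℕ) (hn : 1 ≤ n)
    (R : E m ≃ₗᵢ[ℝ] E m) :
    (Pm m).real (UU m c v C2 ζ q n R) =
      (Pm m).real (Nice m c v C2 ζ n) * (sig m).real (capS m ((1 - c) / 16)) ^ (2 * q) := by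
  unfold UU
  rw [hB m (2 * q + 1) (bt q n) (bn q n) (bA m c v C2 ζ q n R)
    (fun i _ => block_ok c v C2 ζ q n R i)
    (fun i _ => by
      unfold bt bn
      split_ifs <;> omega)]
  have hq : q ∈ Finset.range (2 * q + 1) := Finset.mem_range.2 (by omega)
  rw [← Finset.mul_prod_erase _ _ hq, bA_q]
  congr 1
  · exact hR m R.symm _ (meas_Nice c v C2 ζ n)
  · rw [Finset.prod_congr rfl (g := fun _ => (sig m).real (capS m ((1 - c) / 16)))]
    · rw [Finset.prod_const, Finset.card_erase_of_mem hq, Finset.card_range]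
      rfl
    · intro i hi
      rw [bA_ne c v C2 ζ q n R (Finset.ne_of_mem_erase hi), prob_capO]

theorem UU_facts {c v C2 ζ : ℝ} {q n : ℕ} {R : E m ≃ₗᵢ[ℝ] E m} {u : Om m}
    (hu : u ∈ UU m c v C2 ζ q n R) (hn : 1 ≤ n) :
    (∀ k < q, 1 - (1 - c) / 16 < ⟪e0 m, (u k : E m)⟫) ∧
    rotO R.symm (shift q u) ∈ Nice m c v C2 ζ n ∧
    ∀ k, q + n ≤ k → k < n + 2 * q → 1 - (1 - c) / 16 < ⟪e0 m, (u k : E m)⟫ := by
  refine ⟨?_, ?_, ?_⟩
  · intro k hk
    have h := hu k (by omega)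
    rw [bA_ne c v C2 ζ q n R (by omega), bt, if_pos hk.le] at h
    exact h
  · have h := hu q (by omega)
    rw [bA_q, bt, if_pos le_rfl] at h
    exact h
  · intro k hk1 hk2
    have h := hu (k - n + 1) (by omega)
    rw [bA_ne c v C2 ζ q n R (by omega), bt, if_neg (by omega)] at h
    have e : n + (k - n + 1) - 1 = k := by omega
    rw [e] at h
    exact h

theorem s_up (hB : S_BLOCK) (hR : S_ROT) (hS : S_SIG) (hL : S_LIN) : S_UP := by
  intro m c v C2 hc0 hc1 hv0 hv1 hC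
  obtain ⟨q, hq⟩ := exists_nat_ge (2 * (C2 + 1))
  have hcap : 0 < (sig m).real (capS m ((1 - c) / 16)) :=
    hS.1 m (e0 m) ((1 - c) / 16) norm_e0 (by linarith)
  refine ⟨q, (sig m).real (capS m ((1 - c) / 16)) ^ (2 * q), pow_pos hcap _, ?_⟩
  intro ζ F n hζ hn hF hsep
  have hex : ∀ f : E m, ∃ R : E m ≃ₗᵢ[ℝ] E m, f ∈ F → R (e0 m) = f := by
    intro f
    by_cases hf : f ∈ F
    · obtain ⟨R, hR'⟩ := hL.1 m f (hF f hf).1
      exact ⟨R, fun _ => hR'⟩
    · exact ⟨LinearIsometryEquiv.refl ℝ _, fun h => absurd h hf⟩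
  choose R hRf using hex
  have hsub : ∀ f ∈ F, UU m c v C2 ζ q n (R f) ⊆ Brd m c (n + 2 * q) := by
    intro f hf u hu
    obtain ⟨h1, h2, h3⟩ := UU_facts hu hn
    refine up_bridge hc0 hc1 hv0 hC hq (R f) ?_ u h1 h2 h3
    rw [hRf f hf]
    exact (hF f hf).2
  have hD : ∀ f ∈ F, ∀ u ∈ UU m c v C2 ζ q n (R f), ‖S u q (q + n) - (v * n) • f‖ ≤ ζ * n := by
    intro f hf u hu
    obtain ⟨h1, h2, h3⟩ := UU_facts hu hn
    have h4 := h2.2.2.2
    rw [rotO_S, S_shift, add_zero] at h4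
    have h5 : (R f).symm (S u q (q + n)) - (v * n) • e0 m =
        (R f).symm (S u q (q + n) - (v * n) • f) := by
      rw [map_sub, map_smul]
      congr 2
      rw [LinearIsometryEquiv.eq_symm_apply]
      exact hRf f hf
    rw [h5, LinearIsometryEquiv.norm_map] at h4
    exact h4
  have hdisj : PairwiseDisjoint (↑F) fun f => UU m c v C2 ζ q n (R f) := by
    intro f hf f' hf' hne
    refine Set.disjoint_left.2 fun u hu hu' => ?_
    have h1 := hD f hf u hu
    have h2 := hD f' hf' u hu'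
    have h3 := hsep f hf f' hf' hne
    have hn0 : (0 : ℝ) < n := by exact_mod_cast hn
    have h4 : ‖(v * n) • f - (v * n) • f'‖ ≤ ζ * n + ζ * n := by
      have e : (v * (n : ℝ)) • f - (v * n) • f' =
          (S u q (q + n) - (v * n) • f') - (S u q (q + n) - (v * n) • f) := by abel
      rw [e]
      exact (norm_sub_le _ _).trans (add_le_add h2 h1)
    rw [← smul_sub, norm_smul, Real.norm_eq_abs, abs_of_pos (by positivity)] at h4
    have h5 : 2 * ζ * n < v * ‖f - f'‖ * n := mul_lt_mul_of_pos_right h3 hn0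
    nlinarith
  calc (F.card : ℝ) * (Pm m).real (Nice m c v C2 ζ n) *
        (sig m).real (capS m ((1 - c) / 16)) ^ (2 * q)
      = ∑ f ∈ F, (Pm m).real (UU m c v C2 ζ q n (R f)) := by
        rw [Finset.sum_congr rfl fun f _ => prob_UU hB hR c v C2 ζ q n hn (R f)]
        rw [Finset.sum_const, nsmul_eq_mul]
        ring
    _ = (Pm m).real (⋃ f ∈ F, UU m c v C2 ζ q n (R f)) :=
        (measureReal_biUnion_finset hdisj (fun f _ => meas_UU c v C2 ζ q n (R f))).symm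
    _ ≤ (Pm m).real (Brd m c (n + 2 * q)) := by
        refine measureReal_mono ?_ (measure_ne_top _ _)
        exact Set.iUnion₂_subset hsub
    _ = B m c (n + 2 * q) := rfl

end Pool.Agent.H404.HS

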